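import Pool.Agent.Helper28.BA.GoalsA

/-! # Packet BA ENV: the two-sided envelope -/

open Complex MeasureTheory Set Filter Topology

namespace Pool.Agent.Helper69.BA

open Pool.Agent.Helper28.BA

theorem up_cont {w : ℂ → ℝ} (h : Up w) : Continuous w := by
  have h1 : ContinuousOn (fun z : ℂ => w z + ‖z‖ ^ 2 / 2) univ := ConvexOn.continuousOn isOpen_univ h
  have h2 : Continuous (fun z : ℂ => w z + ‖z‖ ^ 2 / 2) := continuousOn_univ.1 h1
  have h3 : Continuous fun z : ℂ => ‖z‖ ^ 2 / 2 := by fun_prop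
  have h4 := h2.sub h3
  refine h4.congr fun z => ?_
  simp

theorem dot_lin (a x y : ℂ) (s t : ℝ) : dot a (s * x + t * y) = s * dot a x + t * dot a y := by
  simp only [dot, add_re, add_im, re_ofReal_mul, im_ofReal_mul]
  ring

theorem norm_sq_sub (x z : ℂ) : ‖x‖ ^ 2 = ‖z‖ ^ 2 + 2 * dot z (x - z) + ‖x - z‖ ^ 2 := by
  rw [Complex.sq_norm, Complex.sq_norm, Complex.sq_norm, Complex.normSq_apply,
    Complex.normSq_apply, Complex.normSq_apply]
  simp only [dot, sub_re, sub_im]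
  ring

theorem dot_cont (a z : ℂ) : Continuous fun x => dot a (x - z) := by
  unfold dot
  fun_prop

/-- the hull of a subsolution is a subsolution -/
theorem hull_mem (h1 : S_HULL) {u b f : ℂ → ℝ} (hb : ∃ M, ∀ z, b z ≤ M) (hDb : Dn b)
    (hf : Up f) (hs : SubT u f) (hf1 : ∀ z, -b z ≤ f z) (hf2 : ∀ z, f z ≤ b z) :
    ∃ g : ℂ → ℝ, Up g ∧ Dn g ∧ SubT u g ∧ (∀ z, -b z ≤ g z ∧ g z ≤ b z) ∧ ∀ z, f z ≤ g z := by
  obtain ⟨M, hM⟩ := hb
  obtain ⟨g, hg1, hg2, hg3, hg4, hg5⟩ := h1 f (up_cont hf) ⟨M, fun z => (hf2 z).trans (hM z)⟩ hf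
  refine ⟨g, hg1, hg2, ?_, fun z => ⟨(hf1 z).trans (hg3 z), hg4 b hDb hf2 z⟩, hg3⟩
  intro z hz ε a r hε hr
  by_contra hcon
  push Not at hcon
  have h2 : g z = f z := hg5 z a ε r hε hr hcon
  have h3 : u z < f z := h2 ▸ hz
  obtain ⟨x, hx, hx'⟩ := hs z h3 ε a r hε hr
  have h4 := hcon x hx
  rw [h2] at h4
  exact absurd (hx'.trans_le (hg3 x)) (not_lt.2 h4)

theorem ENV (h1 : S_HULL) (h2 : S_BARR) (h3 : S_SUPF) : S_ENV := by
  intro u hu hus
  obtain ⟨b, hbc, hbs, hub, hDb, hDb'⟩ := h2 u hu hus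
  have hb0 : ∀ z, 0 ≤ b z := fun z => (abs_nonneg _).trans (hub z)
  have hbM : ∃ M, ∀ z, b z ≤ M := by
    obtain ⟨M, hM⟩ := hbs.exists_bound_of_continuous hbc
    exact ⟨M, fun z => (le_abs_self _).trans (hM z)⟩
  let 𝒱 : Set (ℂ → ℝ) := {v | Up v ∧ Dn v ∧ SubT u v ∧ ∀ z, -b z ≤ v z ∧ v z ≤ b z}
  have hmb : (fun z => -b z) ∈ 𝒱 := by
    refine ⟨?_, hDb', ?_, fun z => ⟨le_rfl, by linarith [hb0 z]⟩⟩
    · have h4 : (fun z : ℂ => -b z + ‖z‖ ^ 2 / 2) = fun z : ℂ => ‖z‖ ^ 2 / 2 - b z := by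
        funext z; ring
      unfold Up
      rw [h4]
      exact hDb
    · intro z hz
      exfalso
      have := neg_abs_le (u z)
      linarith [hub z]
  have hne : 𝒱.Nonempty := ⟨_, hmb⟩
  let w : ℂ → ℝ := fun z => sSup ((fun v => v z) '' 𝒱)
  have hbdd : ∀ z, BddAbove ((fun v : ℂ → ℝ => v z) '' 𝒱) := by
    intro z
    refine ⟨b z, ?_⟩
    rintro _ ⟨v, hv, rfl⟩
    exact (hv.2.2.2 z).2
  have hle : ∀ v ∈ 𝒱, ∀ z, v z ≤ w z := fun v hv z => le_csSup (hbdd z) ⟨v, hv, rfl⟩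
  obtain ⟨hUw, hSw⟩ := h3 u b hu 𝒱 hne fun v hv => ⟨hv.1, hv.2.2.1, fun z => (hv.2.2.2 z).2⟩
  have hUw' : Up w := hUw
  have hSw' : SubT u w := hSw
  have hw1 : ∀ z, -b z ≤ w z := fun z => hle _ hmb z
  have hw2 : ∀ z, w z ≤ b z := by
    intro z
    refine csSup_le (hne.image _) ?_
    rintro _ ⟨v, hv, rfl⟩
    exact (hv.2.2.2 z).2
  -- every subsolution is below `w`
  have hsub : ∀ f : ℂ → ℝ, Up f → SubT u f → (∀ z, -b z ≤ f z) → (∀ z, f z ≤ b z) →
      ∀ z, f z ≤ w z := by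
    intro f hf hs hf1 hf2 z
    obtain ⟨g, hg1, hg2, hg3, hg4, hg5⟩ := hull_mem h1 hbM hDb hf hs hf1 hf2
    exact (hg5 z).trans (hle g ⟨hg1, hg2, hg3, hg4⟩ z)
  have hDw : Dn w := by
    obtain ⟨g, hg1, hg2, hg3, hg4, hg5⟩ := hull_mem h1 hbM hDb hUw' hSw' hw1 hw2
    have h4 : g = w := funext fun z => le_antisymm (hle g ⟨hg1, hg2, hg3, hg4⟩ z) (hg5 z)
    exact h4 ▸ hg2
  have hws : HasCompactSupport w := by
    refine hbs.mono fun z hz => ?_
    rw [Function.mem_support] at hz ⊢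
    intro h0
    apply hz
    have := hw1 z
    have := hw2 z
    linarith
  have hwc : Continuous w := up_cont hUw'
  refine ⟨w, hUw', hDw, hws, hSw', ?_⟩
  intro z hz ε a r hε hr
  by_contra hcon
  push Not at hcon
  have hzz : w z < u z := by linarith
  -- the affine function
  let A : ℂ → ℝ := fun x => w z + ‖z‖ ^ 2 / 2 + dot (z - a) (x - z)
  have hA : ∀ x, ‖x - z‖ < r → A x + ε * (‖x - z‖ ^ 2 / 2) ≤ w x + ‖x‖ ^ 2 / 2 := by
    intro x hx
    have h4 := hcon x hx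
    have h5 := norm_sq_sub x z
    have h6 : dot (z - a) (x - z) = dot z (x - z) - dot a (x - z) := by
      simp only [dot, sub_re, sub_im]; ring
    change w z + ‖z‖ ^ 2 / 2 + dot (z - a) (x - z) + ε * (‖x - z‖ ^ 2 / 2) ≤ _
    rw [h6]
    nlinarith [h4, h5]
  have hAz : A z = w z + ‖z‖ ^ 2 / 2 := by
    change w z + ‖z‖ ^ 2 / 2 + dot (z - a) (z - z) = _
    simp [dot]
  have hAc : Continuous A := continuous_const.add (dot_cont _ _)
  -- choice of `ρ`, `δ`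
  obtain ⟨ρ, hρ, hρr, hρu⟩ : ∃ ρ > 0, ρ < r ∧ ∀ x, ‖x - z‖ < ρ →
      A x - ‖x‖ ^ 2 / 2 + (u z - w z) / 2 < u x := by
    have h4 : ∀ᶠ x in 𝓝 z, A x - ‖x‖ ^ 2 / 2 + (u z - w z) / 2 < u x := by
      refine ContinuousAt.eventually_lt (f := fun x => A x - ‖x‖ ^ 2 / 2 + (u z - w z) / 2)
        (by fun_prop) hu.continuousAt ?_
      change A z - ‖z‖ ^ 2 / 2 + (u z - w z) / 2 < u z
      rw [hAz]
      linarith
    obtain ⟨ρ', hρ', h5⟩ := Metric.eventually_nhds_iff.1 h4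
    refine ⟨min ρ' (r / 2), lt_min hρ' (half_pos hr), (min_le_right _ _).trans_lt (half_lt_self hr),
      fun x hx => h5 ?_⟩
    rw [dist_eq_norm]
    exact hx.trans_le (min_le_left _ _)
  let δ := min ((u z - w z) / 2) (ε * (ρ ^ 2 / 2))
  have hδ : 0 < δ := lt_min (by linarith) (by positivity)
  have hδ1 : δ ≤ (u z - w z) / 2 := min_le_left _ _
  have hδ2 : δ ≤ ε * (ρ ^ 2 / 2) := min_le_right _ _
  have hout : ∀ x, ρ ≤ ‖x - z‖ → A x + δ ≤ w x + ‖x‖ ^ 2 / 2 := by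
    intro x hx
    have hpos : 0 < ‖x - z‖ := hρ.trans_le hx
    set t := ρ / ‖x - z‖ with ht
    have ht0 : 0 < t := div_pos hρ hpos
    have ht1 : t ≤ 1 := (div_le_one hpos).2 hx
    let y : ℂ := ((1 - t : ℝ) : ℂ) * z + ((t : ℝ) : ℂ) * x
    have hy : y - z = (t : ℂ) * (x - z) := by
      simp only [y]
      push_cast
      ring
    have hyn : ‖y - z‖ = ρ := by
      rw [hy, norm_mul, Complex.norm_real, Real.norm_eq_abs, abs_of_pos ht0, ht,
        div_mul_cancel₀ _ hpos.ne']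
    have h4 := hA y (by rw [hyn]; exact hρr)
    rw [hyn] at h4
    have h5 := hUw'.2 (mem_univ z) (mem_univ x) (by linarith : 0 ≤ 1 - t) ht0.le (by ring)
    have h6 : (1 - t) • z + t • x = y := by
      simp only [y, Complex.real_smul]
    rw [h6] at h5
    simp only [smul_eq_mul] at h5
    have h7 : A y = (1 - t) * A z + t * A x := by
      change w z + ‖z‖ ^ 2 / 2 + dot (z - a) (y - z) = (1 - t) * (w z + ‖z‖ ^ 2 / 2 +
        dot (z - a) (z - z)) + t * (w z + ‖z‖ ^ 2 / 2 + dot (z - a) (x - z))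
      rw [hy]
      have h8 := dot_lin (z - a) (x - z) 0 t 0
      simp only [mul_zero, add_zero, zero_mul] at h8
      rw [h8]
      simp [dot]
      ring
    have h8 : t * (w x + ‖x‖ ^ 2 / 2 - A x) ≥ δ := by
      rw [h7, hAz] at h4
      nlinarith
    by_contra h9
    push Not at h9
    have h10 : w x + ‖x‖ ^ 2 / 2 - A x < δ := by linarith
    have h11 : t * (w x + ‖x‖ ^ 2 / 2 - A x) < δ := by
      rcases le_or_gt (w x + ‖x‖ ^ 2 / 2 - A x) 0 with h | h
      · have := mul_nonpos_of_nonneg_of_nonpos ht0.le h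
        linarith
      · calc t * (w x + ‖x‖ ^ 2 / 2 - A x) ≤ 1 * (w x + ‖x‖ ^ 2 / 2 - A x) :=
              mul_le_mul_of_nonneg_right ht1 h.le
          _ < δ := by linarith
    linarith
  -- the larger subsolution
  let v : ℂ → ℝ := fun x => max (w x) (A x + δ - ‖x‖ ^ 2 / 2)
  have hUv : Up v := by
    have h4 : ConvexOn ℝ univ (fun x => A x + δ) := by
      refine ⟨convex_univ, fun x _ y _ s t hs ht hst => le_of_eq ?_⟩
      change w z + ‖z‖ ^ 2 / 2 + dot (z - a) (s • x + t • y - z) + δ =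
        s * (w z + ‖z‖ ^ 2 / 2 + dot (z - a) (x - z) + δ) +
        t * (w z + ‖z‖ ^ 2 / 2 + dot (z - a) (y - z) + δ)
      have h5 : s • x + t • y - z = (s : ℂ) * (x - z) + (t : ℂ) * (y - z) := by
        have h6 : (s : ℂ) + (t : ℂ) = 1 := by rw [← Complex.ofReal_add, hst, Complex.ofReal_one]
        simp only [Complex.real_smul]
        linear_combination z * h6
      rw [h5, dot_lin]
      have : t = 1 - s := by linarith
      subst this
      ring
    have h5 := hUw'.sup h4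
    unfold Up
    have h6 : (fun x : ℂ => v x + ‖x‖ ^ 2 / 2) =
        (fun x : ℂ => w x + ‖x‖ ^ 2 / 2) ⊔ fun x => A x + δ := by
      funext x
      change max (w x) (A x + δ - ‖x‖ ^ 2 / 2) + ‖x‖ ^ 2 / 2 = max (w x + ‖x‖ ^ 2 / 2) (A x + δ)
      rw [← max_add_add_right]
      congr 1
      ring
    rw [h6]
    exact h5
  have hwv : ∀ x, w x ≤ v x := fun x => le_max_left _ _
  have hvu : ∀ x, w x < A x + δ - ‖x‖ ^ 2 / 2 → A x + δ - ‖x‖ ^ 2 / 2 < u x := by
    intro x hx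
    have h4 : ‖x - z‖ < ρ := by
      by_contra h5
      push Not at h5
      have := hout x h5
      linarith
    have := hρu x h4
    linarith
  have hSv : SubT u v := by
    intro y hy ε' a' r' hε' hr'
    have h4 : v y = w y := by
      refine max_eq_left ?_
      by_contra h5
      push Not at h5
      have h6 : v y = A y + δ - ‖y‖ ^ 2 / 2 := max_eq_right h5.le
      have := hvu y h5
      rw [h6] at hy
      linarith
    rw [h4] at hy ⊢
    obtain ⟨x, hx, hx'⟩ := hSw' y hy ε' a' r' hε' hr'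
    exact ⟨x, hx, hx'.trans_le (hwv x)⟩
  have hvb : ∀ x, v x ≤ b x := by
    intro x
    refine max_le (hw2 x) ?_
    by_contra h5
    push Not at h5
    have h6 : w x < A x + δ - ‖x‖ ^ 2 / 2 := (hw2 x).trans_lt h5
    have h7 := hvu x h6
    have h8 := (le_abs_self _).trans (hub x)
    linarith
  have h4 := hsub v hUv hSv (fun x => (hw1 x).trans (hwv x)) hvb z
  have h5 : A z + δ - ‖z‖ ^ 2 / 2 ≤ v z := le_max_right _ _
  rw [hAz] at h5
  linarith

end Pool.Agent.Helper69.BA
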