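import Pool.Agent.Helper28.BA.GoalsA

/-! # Packet BA LEV: the derivative vanishes a.e. on a level set -/

open Complex MeasureTheory Set Filter Topology
open scoped NNReal

namespace Pool.Agent.Helper69.BA

open Pool.Agent.Helper28.BA

theorem LEV : S_LEV := by
  rintro F ⟨K, hK⟩
  let f : ℂ → ℂ := fun z => (F z : ℂ)
  let s : Set ℂ := {z | F z = 0} ∩ {z | DifferentiableAt ℝ F z}
  have hs : MeasurableSet s :=
    (isClosed_eq hK.continuous continuous_const).measurableSet.inter
      (measurableSet_of_differentiableAt ℝ F)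
  have hf : ∀ z, DifferentiableAt ℝ F z →
      HasFDerivAt f (Complex.ofRealCLM.comp (fderiv ℝ F z)) z := fun z hz =>
    Complex.ofRealCLM.hasFDerivAt.comp z hz.hasFDerivAt
  have hA : ApproximatesLinearOn f (0 : ℂ →L[ℝ] ℂ) s 0 := by
    intro x hx y hy
    have h1 : F x = 0 := hx.1
    have h2 : F y = 0 := hy.1
    simp [f, h1, h2]
  have h1 := hA.norm_fderiv_sub_le volume hs (fun z => Complex.ofRealCLM.comp (fderiv ℝ F z))
    fun x hx => (hf x hx.2).hasFDerivWithinAt
  rw [ae_restrict_iff' hs] at h1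
  filter_upwards [h1] with z hz hz0
  by_cases hd : DifferentiableAt ℝ F z
  · have h2 := hz ⟨hz0, hd⟩
    have h3 : Complex.ofRealCLM.comp (fderiv ℝ F z) = 0 := by
      have h4 : ‖Complex.ofRealCLM.comp (fderiv ℝ F z) - 0‖₊ = 0 := le_antisymm h2 zero_le
      rw [sub_zero] at h4
      exact nnnorm_eq_zero.1 h4
    ext v
    have h4 := congrArg (fun L : ℂ →L[ℝ] ℂ => L v) h3
    have h5 : ((fderiv ℝ F z v : ℝ) : ℂ) = 0 := h4
    exact_mod_cast h5
  · exact fderiv_zero_of_not_differentiableAt hd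

end Pool.Agent.Helper69.BA
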