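import Pool.Agent.Helper28.BA.GoalsB

/-! # Packet BA MOLL: mollification -/

open Complex MeasureTheory Set Filter Topology ContinuousLinearMap
open scoped ContDiff Convolution

namespace Pool.Agent.Helper69.BA

open Pool.Agent.Helper28.BA

theorem norm_dz_sub_le (f h : ℂ → ℂ) (z : ℂ) : ‖dz h z - dz f z‖ ≤ ‖fderiv ℝ h z - fderiv ℝ f z‖ ∧
    ‖db h z - db f z‖ ≤ ‖fderiv ℝ h z - fderiv ℝ f z‖ := by
  have h1 : ‖(fderiv ℝ h z - fderiv ℝ f z) 1‖ ≤ ‖fderiv ℝ h z - fderiv ℝ f z‖ := by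
    simpa using (fderiv ℝ h z - fderiv ℝ f z).le_opNorm 1
  have h2 : ‖I * (fderiv ℝ h z - fderiv ℝ f z) I‖ ≤ ‖fderiv ℝ h z - fderiv ℝ f z‖ := by
    simpa using (fderiv ℝ h z - fderiv ℝ f z).le_opNorm I
  constructor
  · have e : dz h z - dz f z = (1 / 2 : ℂ) * ((fderiv ℝ h z - fderiv ℝ f z) 1 -
        I * (fderiv ℝ h z - fderiv ℝ f z) I) := by
      simp only [dz, sub_apply]; ring
    rw [e, norm_mul]
    have h3 := norm_sub_le ((fderiv ℝ h z - fderiv ℝ f z) 1) (I * (fderiv ℝ h z - fderiv ℝ f z) I)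
    have h4 : ‖(1 / 2 : ℂ)‖ = 1 / 2 := by norm_num
    rw [h4]
    linarith
  · have e : db h z - db f z = (1 / 2 : ℂ) * ((fderiv ℝ h z - fderiv ℝ f z) 1 +
        I * (fderiv ℝ h z - fderiv ℝ f z) I) := by
      simp only [db, sub_apply]; ring
    rw [e, norm_mul]
    have h3 := norm_add_le ((fderiv ℝ h z - fderiv ℝ f z) 1) (I * (fderiv ℝ h z - fderiv ℝ f z) I)
    have h4 : ‖(1 / 2 : ℂ)‖ = 1 / 2 := by norm_num
    rw [h4]
    linarith

/-- mollification in `C¹` -/
theorem moll_aux (f : ℂ → ℂ) (hf : ContDiff ℝ 1 f) (hfs : HasCompactSupport f) (R δ : ℝ)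
    (hR : tsupport f ⊆ Metric.closedBall 0 R) (hδ : 0 < δ) :
    ∃ h : ℂ → ℂ, ContDiff ℝ ∞ h ∧ HasCompactSupport h ∧
      (∀ z, ‖fderiv ℝ h z - fderiv ℝ f z‖ ≤ δ) ∧
      ∀ z ∉ Metric.closedBall (0 : ℂ) (R + 1), ‖fderiv ℝ h z - fderiv ℝ f z‖ ≤ 0 := by
  have hf' : Continuous (fderiv ℝ f) := hf.continuous_fderiv one_ne_zero
  have hfs' : HasCompactSupport (fderiv ℝ f) := hfs.fderiv ℝ
  obtain ⟨η, hη, hη'⟩ := Metric.uniformContinuous_iff.1
    (hfs'.uniformContinuous_of_continuous hf') δ hδ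
  let φ : ContDiffBump (0 : ℂ) := ⟨min η 1 / 2 / 2, min η 1 / 2, by positivity, by
    have : 0 < min η 1 / 2 := by positivity
    linarith⟩
  have hφη : φ.rOut < η := by
    have h1 : φ.rOut = min η 1 / 2 := rfl
    have h2 := min_le_left η 1
    rw [h1]
    linarith
  have hφ1 : φ.rOut < 1 := by
    have h1 : φ.rOut = min η 1 / 2 := rfl
    have h2 := min_le_right η 1
    rw [h1]
    linarith
  let h : ℂ → ℂ := φ.normed volume ⋆[lsmul ℝ ℝ, volume] f
  have hd : ∀ z, fderiv ℝ h z = (φ.normed volume ⋆[lsmul ℝ ℝ, volume] fderiv ℝ f) z := by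
    intro z
    have h1 := hfs.hasFDerivAt_convolution_right (lsmul ℝ ℝ)
      (μ := volume) (f := φ.normed volume) φ.integrable_normed.locallyIntegrable hf z
    rw [h1.fderiv]
    rfl
  refine ⟨h, ?_, ?_, fun z => ?_, fun z hz => ?_⟩
  · exact φ.hasCompactSupport_normed.contDiff_convolution_left _ φ.contDiff_normed
      hf.continuous.locallyIntegrable
  · exact φ.hasCompactSupport_normed.convolution _ hfs
  · rw [hd, ← dist_eq_norm]
    refine φ.dist_normed_convolution_le hf'.aestronglyMeasurable fun x hx => ?_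
    exact (hη' (lt_trans hx hφη)).le
  · rw [hd, ← dist_eq_norm]
    refine φ.dist_normed_convolution_le hf'.aestronglyMeasurable fun x hx => ?_
    have h1 : ∀ y : ℂ, R < ‖y‖ → fderiv ℝ f y = 0 := by
      intro y hy
      refine image_eq_zero_of_notMem_tsupport fun h2 => ?_
      have h3 := hR (tsupport_fderiv_subset ℝ h2)
      rw [Metric.mem_closedBall, dist_zero_right] at h3
      linarith
    rw [Metric.mem_closedBall, dist_zero_right, not_le] at hz
    have h2 : R < ‖x‖ := by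
      rw [Metric.mem_ball, dist_eq_norm] at hx
      have h3 : ‖z‖ ≤ ‖x‖ + ‖x - z‖ := by
        have := norm_sub_le x (x - z)
        simpa using this
      linarith
    rw [h1 x h2, h1 z (by linarith), dist_self]

theorem integral_small {R q δ : ℝ} (hq : 1 < q) (hδ : 0 ≤ δ) (u : ℂ → ℝ)
    (hu0 : ∀ z, 0 ≤ u z) (hu : ∀ z, u z ≤ δ) (hz : ∀ z ∉ Metric.closedBall (0 : ℂ) R, u z ≤ 0) :
    ∫ z, u z ^ q ≤ δ ^ q * volume.real (Metric.closedBall (0 : ℂ) R) := by
  have e : ∫ z, u z ^ q = ∫ z in Metric.closedBall (0 : ℂ) R, u z ^ q := by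
    refine (setIntegral_eq_integral_of_forall_compl_eq_zero fun z hz' => ?_).symm
    rw [le_antisymm (hz z hz') (hu0 z), Real.zero_rpow (by linarith)]
  rw [e]
  have h1 : ‖∫ z in Metric.closedBall (0 : ℂ) R, u z ^ q‖ ≤
      δ ^ q * volume.real (Metric.closedBall (0 : ℂ) R) := by
    refine norm_setIntegral_le_of_norm_le_const ?_ fun z _ => ?_
    · exact (isCompact_closedBall (0 : ℂ) R).measure_lt_top
    · rw [Real.norm_eq_abs, abs_of_nonneg (Real.rpow_nonneg (hu0 z) _)]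
      exact Real.rpow_le_rpow (hu0 z) (hu z) (by linarith)
  exact (le_abs_self _).trans h1

theorem MOLL : S_MOLL := by
  intro f hf hfs q ε hq hε
  obtain ⟨R, hR⟩ := hfs.isCompact.isBounded.subset_closedBall (0 : ℂ)
  set V := volume.real (Metric.closedBall (0 : ℂ) (R + 1)) with hV
  have hV0 : 0 ≤ V := measureReal_nonneg
  have hpos : 0 < ε / (V + 1) := by positivity
  set δ := (ε / (V + 1)) ^ (1 / q) with hδ
  have hδ0 : 0 < δ := Real.rpow_pos_of_pos hpos _
  have hδq : δ ^ q = ε / (V + 1) := by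
    rw [hδ, ← Real.rpow_mul hpos.le, one_div, inv_mul_cancel₀ (by linarith), Real.rpow_one]
  obtain ⟨h, h1, h2, h3, h4⟩ := moll_aux f hf hfs R δ hR hδ0
  have h5 : δ ^ q * V ≤ ε := by
    rw [hδq, div_mul_eq_mul_div, div_le_iff₀ (by linarith)]
    nlinarith
  refine ⟨h, h1, h2, ?_, ?_⟩
  · refine (integral_small hq hδ0.le (fun z => ‖dz h z - dz f z‖) (fun z => norm_nonneg _)
      (fun z => (norm_dz_sub_le f h z).1.trans (h3 z))
      fun z hz => (norm_dz_sub_le f h z).1.trans (h4 z hz)).trans h5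
  · refine (integral_small hq hδ0.le (fun z => ‖db h z - db f z‖) (fun z => norm_nonneg _)
      (fun z => (norm_dz_sub_le f h z).2.trans (h3 z))
      fun z hz => (norm_dz_sub_le f h z).2.trans (h4 z hz)).trans h5

end Pool.Agent.Helper69.BA
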