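import Pool.Agent.Helper28.BA.GoalsB

/-! # Packet BA Q43: one variable calculus -/

open Set

namespace Pool.Agent.Helper69.BA

open Pool.Agent.Helper28.BA

theorem hasDerivAt_h {s : ℝ} (h0 : -2 < s) (h1 : s < 2) :
    HasDerivAt (fun s : ℝ => s * Real.log 4 - Real.log (2 + s) + Real.log (2 - s))
      (Real.log 4 - 1 / (2 + s) - 1 / (2 - s)) s := by
  have h2 : HasDerivAt (fun s : ℝ => s * Real.log 4) (1 * Real.log 4) s :=
    (hasDerivAt_id s).mul_const _
  have h3 : HasDerivAt (fun s : ℝ => Real.log (2 + s)) (1 / (2 + s)) s :=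
    ((hasDerivAt_id s).const_add 2).log (by simp; linarith)
  have h4 : HasDerivAt (fun s : ℝ => Real.log (2 - s)) (-1 / (2 - s)) s :=
    ((hasDerivAt_id s).const_sub 2).log (by simp; linarith)
  exact ((h2.sub h3).add h4).congr_deriv (by ring)

theorem mono_h : MonotoneOn (fun s : ℝ => s * Real.log 4 - Real.log (2 + s) + Real.log (2 - s))
    (Icc 0 1) := by
  refine monotoneOn_of_deriv_nonneg (convex_Icc 0 1) ?_ ?_ ?_
  · intro s hs
    exact (hasDerivAt_h (by linarith [hs.1]) (by linarith [hs.2])).continuousAt.continuousWithinAt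
  · intro s hs
    rw [interior_Icc] at hs
    exact (hasDerivAt_h (by linarith [hs.1])
      (by linarith [hs.2])).differentiableAt.differentiableWithinAt
  · intro s hs
    rw [interior_Icc] at hs
    rw [(hasDerivAt_h (by linarith [hs.1]) (by linarith [hs.2])).deriv]
    have h1 : 0 < 2 + s := by linarith [hs.1]
    have h2 : 0 < 2 - s := by linarith [hs.2]
    have h3 : 1 / (2 + s) + 1 / (2 - s) ≤ 4 / 3 := by
      rw [div_add_div _ _ h1.ne' h2.ne', div_le_div_iff₀ (mul_pos h1 h2) (by norm_num)]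
      nlinarith [hs.1, hs.2]
    have h4 : (4 / 3 : ℝ) ≤ Real.log 4 := by
      have h5 : Real.log 4 = 2 * Real.log 2 := by
        rw [show (4 : ℝ) = 2 ^ 2 by norm_num, Real.log_pow]
        norm_num
      have := Real.log_two_gt_d9
      rw [h5]
      linarith
    linarith

theorem Q43 : S_Q43 := by
  intro q hq1 hq2
  have hq0 : 0 < q := by linarith
  have hs0 : 0 ≤ 4 / q - 2 := by
    rw [sub_nonneg, le_div_iff₀ hq0]; linarith
  have hs1 : 4 / q - 2 ≤ 1 := by
    rw [sub_le_iff_le_add, div_le_iff₀ hq0]; linarith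
  have h := mono_h ⟨hs0, hs1⟩ ⟨zero_le_one, le_rfl⟩ hs1
  simp only at h
  have e1 : 2 + (4 / q - 2) = 4 / q := by ring
  have e2 : 2 - (4 / q - 2) = 4 * (q - 1) / q := by field_simp; ring
  have hq3 : 0 < q - 1 := by linarith
  rw [e1, e2, Real.log_div (by norm_num) hq0.ne', Real.log_div (by positivity) hq0.ne',
    Real.log_mul (by norm_num) hq3.ne'] at h
  have e3 : (2 : ℝ) - 1 = 1 := by norm_num
  have e4 : (2 : ℝ) + 1 = 3 := by norm_num
  rw [e3, e4, Real.log_one] at h
  rw [← Real.log_le_log_iff (by positivity) (by positivity), Real.log_rpow (by norm_num),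
    Real.log_div (by norm_num) hq3.ne', Real.log_div (by norm_num) (by norm_num)]
  linarith

end Pool.Agent.Helper69.BA
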