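import Pool.Agent.Helper28.BA.GoalsB

/-! # Packet BA TINT2: the scale integral for `p > 2` -/

open Complex MeasureTheory Set Filter Topology
open scoped ContDiff

namespace Pool.Agent.Helper69.BA

open Pool.Agent.Helper28.BA

/-- the one dimensional integral -/
theorem scale_integral {p S D M : ℝ} (hp : 2 < p) (hS : 0 ≤ S) (hD : 0 ≤ D) (hM : S + D ≤ M) :
    ∫ t in Ioc 0 M, t ^ (p - 3) * (if S + D ≤ t then 0 else D ^ 2 - (S - t) ^ 2) =
      2 / (p * (p - 1) * (p - 2)) * ((S + D) ^ (p - 1) * ((p - 1) * D - S)) := by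
  have hρ : 0 ≤ S + D := add_nonneg hS hD
  have hM0 : 0 ≤ M := hρ.trans hM
  have h1 : ∀ t, 0 < t → t ^ (p - 3) * (if S + D ≤ t then 0 else D ^ 2 - (S - t) ^ 2) =
      (Ioc 0 (S + D)).indicator (fun t => (D ^ 2 - S ^ 2) * t ^ (p - 3) +
        2 * S * t ^ (p - 2) - t ^ (p - 1)) t := by
    intro t ht
    have e1 : t ^ (p - 2) = t ^ (p - 3) * t := by
      rw [← Real.rpow_add_one ht.ne']; congr 1; ring
    have e2 : t ^ (p - 1) = t ^ (p - 3) * t * t := by
      rw [← e1, ← Real.rpow_add_one ht.ne']; congr 1; ring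
    by_cases h : S + D ≤ t
    · rw [if_pos h]
      rcases h.eq_or_lt with h | h
      · rw [indicator_of_mem (show t ∈ Ioc 0 (S + D) from ⟨ht, h.ge⟩), e1, e2, ← h]
        ring
      · rw [indicator_of_notMem (fun h' => absurd h'.2 (not_le.2 h)), mul_zero]
    · rw [if_neg h, indicator_of_mem (show t ∈ Ioc 0 (S + D) from ⟨ht, (not_le.1 h).le⟩), e1, e2]
      ring
  rw [setIntegral_congr_fun measurableSet_Ioc fun t ht => h1 t ht.1,
    setIntegral_indicator measurableSet_Ioc, Ioc_inter_Ioc, max_self, min_eq_right hM,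
    ← intervalIntegral.integral_of_le hρ]
  have i1 : IntervalIntegrable (fun t : ℝ => (D ^ 2 - S ^ 2) * t ^ (p - 3)) volume 0 (S + D) :=
    (intervalIntegral.intervalIntegrable_rpow' (by linarith)).const_mul _
  have i2 : IntervalIntegrable (fun t : ℝ => 2 * S * t ^ (p - 2)) volume 0 (S + D) :=
    (intervalIntegral.intervalIntegrable_rpow' (by linarith)).const_mul _
  have i3 : IntervalIntegrable (fun t : ℝ => t ^ (p - 1)) volume 0 (S + D) :=
    intervalIntegral.intervalIntegrable_rpow' (by linarith)
  rw [intervalIntegral.integral_sub (i1.add i2) i3, intervalIntegral.integral_add i1 i2,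
    intervalIntegral.integral_const_mul, intervalIntegral.integral_const_mul,
    integral_rpow (Or.inl (by linarith)), integral_rpow (Or.inl (by linarith)),
    integral_rpow (Or.inl (by linarith))]
  have e3 : p - 3 + 1 = p - 2 := by ring
  have e4 : p - 2 + 1 = p - 1 := by ring
  have e5 : p - 1 + 1 = p := by ring
  rw [e3, e4, e5, Real.zero_rpow (by linarith), Real.zero_rpow (by linarith),
    Real.zero_rpow (by linarith)]
  have e6 : (S + D) ^ (p - 1) = (S + D) ^ (p - 2) * (S + D) := by
    rw [← Real.rpow_add_one' hρ (by linarith), e4]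
  have e7 : (S + D) ^ p = (S + D) ^ (p - 2) * (S + D) * (S + D) := by
    rw [← e6, ← Real.rpow_add_one' hρ (by linarith), e5]
  rw [e6, e7]
  have h2 : p ≠ 0 := by linarith
  have h3 : p - 1 ≠ 0 := by linarith
  have h4 : p - 2 ≠ 0 := by linarith
  field_simp
  ring

theorem TINT2 : S_TINT2 := by
  intro p hp S D hSc hDc hSs hDs hS0 hD0 h
  -- a compact set and a bound
  set K : Set ℂ := tsupport S ∪ tsupport D with hK
  have hKc : IsCompact K := IsCompact.union hSs hDs
  obtain ⟨M, hM⟩ : ∃ M, ∀ z, S z + D z ≤ M := by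
    obtain ⟨M1, h1⟩ := hSs.exists_bound_of_continuous hSc
    obtain ⟨M2, h2⟩ := hDs.exists_bound_of_continuous hDc
    exact ⟨M1 + M2, fun z => add_le_add ((le_abs_self _).trans (h1 z))
      ((le_abs_self _).trans (h2 z))⟩
  have hz : ∀ z ∉ K, S z = 0 ∧ D z = 0 := fun z hz =>
    ⟨image_eq_zero_of_notMem_tsupport fun h => hz (Or.inl h),
      image_eq_zero_of_notMem_tsupport fun h => hz (Or.inr h)⟩
  let g : ℝ → ℂ → ℝ := fun t z => if S z + D z ≤ t then 0 else D z ^ 2 - (S z - t) ^ 2
  have hg : ∀ t, 0 < t → ∀ z, |g t z| ≤ M ^ 2 := by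
    intro t ht z
    have h1 := hS0 z
    have h2 := hD0 z
    have h3 := hM z
    by_cases hle : S z + D z ≤ t
    · simp only [g, if_pos hle, abs_zero]
      positivity
    · simp only [g, if_neg hle]
      push Not at hle
      rw [abs_le]
      constructor
      · nlinarith [sq_nonneg (D z), abs_le_of_sq_le_sq' (a := S z - t) (b := M)
          (by nlinarith) (by linarith)]
      · nlinarith [sq_nonneg (S z - t)]
  have hfin : IsFiniteMeasure ((volume : Measure ℂ).restrict K) :=
    ⟨by rw [Measure.restrict_apply_univ]; exact hKc.measure_lt_top⟩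
  have hint : Integrable (Function.uncurry fun (t : ℝ) (z : ℂ) => t ^ (p - 3) * g t z)
      ((volume.restrict (Ioc 0 M)).prod ((volume : Measure ℂ).restrict K)) := by
    have i1 : Integrable (fun t : ℝ => t ^ (p - 3)) (volume.restrict (Ioc 0 M)) := by
      rcases le_or_gt 0 M with hM0 | hM0
      · have := intervalIntegral.intervalIntegrable_rpow' (a := 0) (b := M) (r := p - 3)
          (by linarith)
        exact (intervalIntegrable_iff_integrableOn_Ioc_of_le hM0).1 this
      · rw [Ioc_eq_empty (not_lt.2 hM0.le), Measure.restrict_empty]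
        exact integrable_zero_measure
    have i2 : Integrable (fun _ : ℂ => M ^ 2) ((volume : Measure ℂ).restrict K) :=
      integrable_const _
    refine (i1.mul_prod i2).mono' ?_ ?_
    · refine Measurable.aestronglyMeasurable ?_
      refine (measurable_fst.pow_const _).mul ?_
      refine Measurable.ite ?_ measurable_const ?_
      · exact measurableSet_le ((hSc.measurable.comp measurable_snd).add
          (hDc.measurable.comp measurable_snd)) measurable_fst
      · exact ((hDc.measurable.comp measurable_snd).pow_const 2).sub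
          (((hSc.measurable.comp measurable_snd).sub measurable_fst).pow_const 2)
    · rw [Measure.prod_restrict]
      refine (ae_restrict_iff' (measurableSet_Ioc.prod hKc.measurableSet)).2
        (Eventually.of_forall ?_)
      rintro ⟨t, z⟩ ⟨ht, -⟩
      have ht0 : 0 < t := ht.1
      change |t ^ (p - 3) * g t z| ≤ t ^ (p - 3) * M ^ 2
      rw [abs_mul, abs_of_nonneg (Real.rpow_nonneg ht0.le _)]
      exact mul_le_mul_of_nonneg_left (hg t ht0 z) (Real.rpow_nonneg ht0.le _)
  have hswap := integral_integral_swap hint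
  have hleft : 0 ≤ ∫ t in Ioc 0 M, ∫ z in K, t ^ (p - 3) * g t z := by
    refine setIntegral_nonneg measurableSet_Ioc fun t ht => ?_
    rw [integral_const_mul]
    refine mul_nonneg (Real.rpow_nonneg ht.1.le _) ?_
    rw [setIntegral_eq_integral_of_forall_compl_eq_zero]
    · exact h t ht.1
    · intro z hzK
      obtain ⟨h1, h2⟩ := hz z hzK
      have : S z + D z ≤ t := by rw [h1, h2, add_zero]; exact ht.1.le
      exact if_pos this
  rw [hswap] at hleft
  have hright : ∫ z in K, ∫ t in Ioc 0 M, t ^ (p - 3) * g t z =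
      2 / (p * (p - 1) * (p - 2)) * ∫ z, (S z + D z) ^ (p - 1) * ((p - 1) * D z - S z) := by
    have h1 : ∀ z, ∫ t in Ioc 0 M, t ^ (p - 3) * g t z =
        2 / (p * (p - 1) * (p - 2)) * ((S z + D z) ^ (p - 1) * ((p - 1) * D z - S z)) :=
      fun z => scale_integral hp (hS0 z) (hD0 z) (hM z)
    simp only [h1]
    rw [integral_const_mul, setIntegral_eq_integral_of_forall_compl_eq_zero]
    intro z hzK
    obtain ⟨h1, h2⟩ := hz z hzK
    rw [h1, h2]
    simp
  rw [hright] at hleft
  have hc : 0 < 2 / (p * (p - 1) * (p - 2)) := by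
    have h1 : 0 < p - 1 := by linarith
    have h2 : 0 < p - 2 := by linarith
    have h3 : 0 < p := by linarith
    positivity
  exact (mul_nonneg_iff_of_pos_left hc).1 hleft

end Pool.Agent.Helper69.BA
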